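import Pool.Agent.WS.Main

/-!
# MP_4ed1f9_lc: the dichotomy theorem for counting CSPs, unconditionally, with cancellation

`#CSP(F)`, for a set `F` of functions `D^r → ℝ≥0` on a finite domain `D`: given a list `I` of
constraints (functions of `F` applied to tuples of variables), compute the sum over all assignments
`x` of the weight `wt I x`, the product of the values of the constraints. The theorem of Bulatov,
Dyer-Richerby and Cai-Chen-Lu: `#CSP(F)` (`F` finite) is in FP if all `wt I` are balanced, and
`#P`-hard otherwise. Here the same border, for all finite domains and all `F`, separates explicit
formulas (`Easy F`) from exponential lower bounds (`Hard F`), unconditionally, for decomposable
arithmetic circuits with real coefficients. For all `F` exactly one of the two holds.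

`Easy F`: a Mal'tsev operation preserves the supports of the functions of `F`, and every weight
function is balanced and, on its support, a product of functions of one variable.

`Hard F`: for every `n` there is a sparse instance and a set `X` of at least `c n` of its variables
with the following property. All the other variables can be eliminated: the variables in `R₀` by
summation, the remaining variables by fixing their values. Let `g` be the weight function `wt I` or
any function obtained from it by eliminating some of these variables (in the extreme case a function
of the variables in `X`). If a circuit of width `W` approximates `g` up to a factor `κ`, and this
computation is `K`-stable, then its size is at least `2 ^ (c n) / (2 κ K) - W`. The gates of the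
circuit are products with disjoint scopes and linear combinations with real coefficients; free
leaves are all functions whose scope has at most two thirds of the variables in `X`, all tame
functions (in particular every weight function on the easy side) and all non-negative functions of
real rank at most `W` across a balanced set of variables. The computation is `K`-stable if the reset
to `0` of any single place changes the result at `x` by at most `K * g x`. If every sum gate loses a
factor of at most `b` by cancellation and there are at most `t` sum gates on a path, it is
`κ b ^ t`-stable; in particular circuits without negative numbers (`b = 1`) are `κ`-stable.

The definitions are in `Pool/Agent/WD/Bsc.lean` (instances, balanced and tame functions) and in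
`Pool/Agent/WS/Model.lean` (circuits, `Easy`, `Hard`).
-/

namespace Pool.Agent.Results.MP_4ed1f9_lc.StableCSPDichotomy

open Pool.Agent.WD Pool.Agent.WS

/-- For every finite domain `D` and every set `F` of functions `D^r → ℝ≥0`, exactly one of the two
sides of the dichotomy holds. -/
theorem result (D : Type) [Fintype D] [DecidableEq D] (F : Set (WFun D)) :
    (Easy F ∨ Hard F) ∧ ¬ (Easy F ∧ Hard F) :=
  dichotomy F

end Pool.Agent.Results.MP_4ed1f9_lc.StableCSPDichotomy
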